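import Pool.Agent.H11.KT.Targets

/-! # The fixed vectors of a commutator (row F_CM) -/

set_option autoImplicit false

open scoped commutatorElement

namespace Pool.Agent.H32.KT

open Pool.Agent.H11.EL Pool.Agent.H11.KT

theorem pf_CM (hIN : F_IN) : F_CM := by
  intro G V _ _ _ _ x n
  obtain ⟨U, hU⟩ : ∃ U : AddSubgroup V, ∀ v, v ∈ U ↔ n • v = v :=
    ⟨{ carrier := {v | n • v = v}
       zero_mem' := smul_zero n
       add_mem' := by
         intro a b ha hb
         simp only [Set.mem_ofPred_eq] at *
         rw [smul_add, ha, hb]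
       neg_mem' := by
         intro a ha
         simp only [Set.mem_ofPred_eq] at *
         rw [smul_neg, ha] }, fun v => Iff.rfl⟩
  have hinj : Function.Injective (DistribSMul.toAddMonoidHom V x) := fun a b h =>
    MulAction.injective x h
  have h1 := hIN V U (U.map (DistribSMul.toAddMonoidHom V x))
  have h2 : Nat.card (U.map (DistribSMul.toAddMonoidHom V x)) = Nat.card U :=
    (Nat.card_congr (U.equivMapOfInjective _ hinj).toEquiv).symm
  have h3 : fc V n = Nat.card U := Nat.card_congr (Equiv.subtypeEquivRight fun v => (hU v).symm)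
  have h4 : Nat.card (U ⊓ U.map (DistribSMul.toAddMonoidHom V x) : AddSubgroup V) ≤
      fc V ⁅x, n⁆ := by
    unfold fc
    have h5 : ∀ v ∈ (U ⊓ U.map (DistribSMul.toAddMonoidHom V x) : AddSubgroup V),
        ⁅x, n⁆ • v = v := by
      intro v hv
      obtain ⟨hv1, w, hw, hw2⟩ := AddSubgroup.mem_inf.1 hv
      have a1 : n • v = v := (hU v).1 hv1
      have a2 : n • w = w := (hU w).1 hw
      have a3 : x • w = v := hw2
      have a4 : n⁻¹ • v = v := by rw [inv_smul_eq_iff, a1]
      have a5 : x⁻¹ • v = w := by rw [inv_smul_eq_iff, a3]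
      rw [commutatorElement_def, mul_smul, mul_smul, mul_smul, a4, a5, a2, a3]
    exact Nat.card_le_card_of_injective
      (fun v : (U ⊓ U.map (DistribSMul.toAddMonoidHom V x) : AddSubgroup V) =>
        (⟨v.1, h5 v.1 v.2⟩ : {v : V // ⁅x, n⁆ • v = v}))
      fun a b hab => Subtype.ext (congrArg (fun z => (z : {v : V // ⁅x, n⁆ • v = v}).1) hab)
  rw [h2] at h1
  rw [h3, _root_.sq]
  exact h1.trans (Nat.mul_le_mul_left _ h4)

end Pool.Agent.H32.KT
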