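import Pool.Agent.H11.KT.Targets

/-! # A coarsest system of projections (row F_CO) -/

set_option autoImplicit false

open scoped commutatorElement

namespace Pool.Agent.H32.KT

open Pool.Agent.H11.EL Pool.Agent.H11.KT

/-- the action on the classes of an invariant equivalence -/
@[instance_reducible]
def qact {G Ω : Type} [Group G] [MulAction G Ω] (s : Setoid Ω)
    (hs : ∀ (g : G) (a b : Ω), s a b → s (g • a) (g • b)) : MulAction G (Quotient s) where
  smul g := Quotient.map (g • ·) fun a b hab => hs g a b hab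
  one_smul D := by
    induction D using Quotient.inductionOn with
    | h a => exact congrArg (Quotient.mk s) (one_smul G a)
  mul_smul x y D := by
    induction D using Quotient.inductionOn with
    | h a => exact congrArg (Quotient.mk s) (mul_smul x y a)

/-- a system remains a system when the blocks are united along an invariant equivalence -/
theorem coarse {G V : Type} [Group G] [AddCommGroup V] [DistribMulAction G V] {Ω : Type}
    [Fintype Ω] [MulAction G Ω] (e : Ω → V →+ V) (h : Sys G e) (s : Setoid Ω)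
    (hs : ∀ (g : G) (a b : Ω), s a b → s (g • a) (g • b)) [Fintype (Quotient s)] :
    ∃ (_ : MulAction G (Quotient s)) (e' : Quotient s → V →+ V), Sys G e' := by
  classical
  let _ := qact s hs
  have hmk : ∀ (g : G) (a : Ω), g • (Quotient.mk s a) = Quotient.mk s (g • a) := fun g a => rfl
  refine ⟨qact s hs, fun D => ∑ ω ∈ Finset.univ.filter (fun ω => Quotient.mk s ω = D), e ω, ?_⟩
  · constructor
    · intro v
      simp only [AddMonoidHom.finsetSum_apply]
      rw [Finset.sum_fiberwise]
      exact h.sum v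
    · intro D D' hD v
      simp only [AddMonoidHom.finsetSum_apply, map_sum]
      refine Finset.sum_eq_zero fun ω hω => Finset.sum_eq_zero fun ω' hω' => ?_
      refine h.orth _ _ ?_ v
      intro h0
      subst h0
      exact hD ((Finset.mem_filter.1 hω).2.symm.trans (Finset.mem_filter.1 hω').2).symm
    · intro g D v
      simp only [AddMonoidHom.finsetSum_apply, Finset.smul_sum]
      refine Finset.sum_nbij' (fun ω => g • ω) (fun ω => g⁻¹ • ω) ?_ ?_ ?_ ?_ ?_
      · intro ω hω
        rw [Finset.mem_filter] at hω ⊢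
        refine ⟨Finset.mem_univ _, ?_⟩
        rw [← hω.2, hmk]
      · intro ω hω
        rw [Finset.mem_filter] at hω ⊢
        refine ⟨Finset.mem_univ _, ?_⟩
        have h1 := hω.2
        induction D using Quotient.inductionOn with
        | h a =>
          have h2 : s ω (g • a) := Quotient.exact h1
          have h3 := hs g⁻¹ _ _ h2
          rw [inv_smul_smul] at h3
          exact Quotient.sound h3
      · intro ω _
        exact inv_smul_smul g ω
      · intro ω _
        exact smul_inv_smul g ω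
      · intro ω _
        exact h.equ g ω v
    · intro D
      induction D using Quotient.inductionOn with
      | h ω =>
        obtain ⟨v, hv⟩ := h.ne ω
        refine ⟨e ω v, ?_⟩
        have h1 : ∑ ω' : Ω, e ω' (e ω v) = e ω (e ω v) :=
          Finset.sum_eq_single_of_mem ω (Finset.mem_univ _) fun ω' _ hne => h.orth ω' ω hne v
        have h2 : ∑ ω' ∈ Finset.univ.filter (fun ω' => Quotient.mk s ω' = Quotient.mk s ω),
            e ω' (e ω v) = e ω (e ω v) :=
          Finset.sum_eq_single_of_mem ω (Finset.mem_filter.2 ⟨Finset.mem_univ _, rfl⟩)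
            fun ω' _ hne => h.orth ω' ω hne v
        rw [AddMonoidHom.finsetSum_apply, h2, ← h1, h.sum]
        exact hv

/-- in an irreducible module the blocks are permuted transitively -/
theorem trans_of_irr {G V : Type} [Group G] [AddCommGroup V] [DistribMulAction G V] (hI : Irr G V)
    {Ω : Type} [Fintype Ω] [MulAction G Ω] (e : Ω → V →+ V) (h : Sys G e) (ω ω' : Ω) :
    ∃ g : G, g • ω = ω' := by
  obtain ⟨U, hU⟩ : ∃ U : AddSubgroup V, ∀ v, v ∈ U ↔ ∀ a : Ω, (∀ g : G, g • ω ≠ a) → e a v = 0 :=
    ⟨{ carrier := {v | ∀ a : Ω, (∀ g : G, g • ω ≠ a) → e a v = 0}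
       zero_mem' := fun a _ => map_zero _
       add_mem' := fun {x y} hx hy a ha => by rw [map_add, hx a ha, hy a ha, add_zero]
       neg_mem' := fun {x} hx a ha => by rw [map_neg, hx a ha, neg_zero] }, fun v => Iff.rfl⟩
  have h1 : ∀ (g : G), ∀ v ∈ U, g • v ∈ U := by
    intro g v hv
    rw [hU] at hv ⊢
    intro a ha
    have h2 := h.equ g (g⁻¹ • a) v
    rw [smul_inv_smul] at h2
    rw [← h2, hv (g⁻¹ • a) ?_, smul_zero]
    intro g' hg'
    apply ha (g * g')
    rw [mul_smul, hg', smul_inv_smul]
  rcases hI.2 U h1 with h2 | h2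
  · exfalso
    obtain ⟨v, hv⟩ := h.ne ω
    apply hv
    have h3 : e ω v ∈ U := by
      rw [hU]
      intro a ha
      exact h.orth a ω (fun h4 => ha 1 (by rw [one_smul, h4])) v
    rw [h2] at h3
    exact (AddSubgroup.mem_bot).1 h3
  · by_contra hc
    push Not at hc
    obtain ⟨v, hv⟩ := h.ne ω'
    apply hv
    have h3 : v ∈ U := by
      rw [h2]
      trivial
    exact (hU v).1 h3 ω' hc

theorem pf_CO : F_CO := by
  classical
  intro G V _ _ _ _ hI hex
  let P : ℕ → Prop := fun n => ∃ (Ω : Type) (_ : Fintype Ω) (_ : MulAction G Ω) (e : Ω → V →+ V),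
    Sys G e ∧ 2 ≤ Fintype.card Ω ∧ Fintype.card Ω = n
  have hP : ∃ n, P n := by
    obtain ⟨Ω, i1, i2, e, h1, h2⟩ := hex
    exact ⟨Fintype.card Ω, Ω, i1, i2, e, h1, h2, rfl⟩
  obtain ⟨Ω, i1, i2, e, h1, h2, h3⟩ := Nat.find_spec hP
  have hmin : ∀ m, P m → Nat.find hP ≤ m := fun m hm => Nat.find_min' hP hm
  rw [← h3] at hmin
  refine ⟨Ω, i1, i2, e, h1, h2, fun ω ω' => trans_of_irr hI e h1 ω ω', ?_⟩
  intro R hR
  by_cases hR1 : ∀ r ∈ R, ∀ ω : Ω, r • ω = ω
  · exact Or.inl hR1
  · refine Or.inr ?_
    push Not at hR1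
    obtain ⟨r₀, hr₀, ω₀, hω₀⟩ := hR1
    obtain ⟨s, hs⟩ : ∃ s : Setoid Ω, ∀ a b : Ω, s a b ↔ ∃ r ∈ R, r • a = b := by
      refine ⟨⟨fun a b => ∃ r ∈ R, r • a = b, ?_, ?_, ?_⟩, fun a b => Iff.rfl⟩
      · intro a
        exact ⟨1, R.one_mem, one_smul G a⟩
      · rintro a b ⟨r, hr, rfl⟩
        exact ⟨r⁻¹, R.inv_mem hr, inv_smul_smul r a⟩
      · rintro a b c ⟨r, hr, rfl⟩ ⟨r', hr', rfl⟩
        exact ⟨r' * r, R.mul_mem hr' hr, mul_smul r' r a⟩
    have hs2 : ∀ (g : G) (a b : Ω), s a b → s (g • a) (g • b) := by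
      intro g a b hab
      rw [hs] at hab ⊢
      obtain ⟨r, hr, rfl⟩ := hab
      exact ⟨g * r * g⁻¹, hR.conj_mem r hr g, by rw [mul_smul, mul_smul, inv_smul_smul]⟩
    let _ : Fintype (Quotient s) := Fintype.ofFinite _
    obtain ⟨act, e', he'⟩ := coarse e h1 s hs2
    have hlt : Fintype.card (Quotient s) < Fintype.card Ω := by
      refine lt_of_not_ge fun hge => hω₀ ?_
      have hb : Function.Bijective (Quotient.mk s) :=
        (Fintype.bijective_iff_surjective_and_card _).2 ⟨Quotient.mk_surjective,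
          le_antisymm hge (Fintype.card_le_of_surjective _ Quotient.mk_surjective)⟩
      have h5 : s ω₀ (r₀ • ω₀) := (hs _ _).2 ⟨r₀, hr₀, rfl⟩
      exact (hb.1 (Quotient.sound h5)).symm
    have hle : Fintype.card (Quotient s) ≤ 1 := by
      by_contra hc
      have := hmin _ ⟨Quotient s, inferInstance, act, e', he', by omega, rfl⟩
      omega
    intro ω ω'
    have h6 : Quotient.mk s ω = Quotient.mk s ω' := Fintype.card_le_one_iff.1 hle _ _
    exact (hs _ _).1 (Quotient.exact h6)

end Pool.Agent.H32.KT
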